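import Pool.Agent.W223.HZ.Stms

/-!
# HZ-CNC: the `k` from non-cube first coefficients
-/

namespace Pool.Agent.W214.HZ

open Pool.Agent.W223.HZ Finset

lemma card_box (X : ℝ) (hX : 1 ≤ X) (c : ℝ) (hc : c = 200 * X) :
    ((Finset.Icc (-⌊c⌋) ⌊c⌋).card : ℝ) ≤ 401 * X := by
  have h0 : (0 : ℤ) ≤ ⌊c⌋ := Int.floor_nonneg.2 (by rw [hc]; linarith)
  have h1 : ((Finset.Icc (-⌊c⌋) ⌊c⌋).card : ℝ) = 2 * (⌊c⌋ : ℝ) + 1 := by
    rw [Int.card_Icc]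
    have e : ((⌊c⌋ + 1 - -⌊c⌋).toNat : ℤ) = 2 * ⌊c⌋ + 1 := by
      rw [Int.toNat_of_nonneg (by omega)]
      ring
    exact_mod_cast e
  have h2 : (⌊c⌋ : ℝ) ≤ c := Int.floor_le c
  rw [h1]
  linarith

lemma mem_box (x : ℤ) (c : ℝ) (h : |(x : ℝ)| ≤ c) : x ∈ Finset.Icc (-⌊c⌋) ⌊c⌋ := by
  rw [Finset.mem_Icc]
  obtain ⟨h1, h2⟩ := abs_le.1 h
  constructor
  · have : -x ≤ ⌊c⌋ := Int.le_floor.2 (by push_cast; linarith)
    linarith
  · exact Int.le_floor.2 h2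

theorem t (hF : StmtFIB) : StmtCNC := by
  classical
  obtain ⟨S₀, hS₀, hF⟩ := hF
  refine ⟨2 * 401 ^ 3, max 20 (8 * S₀), by norm_num, le_max_of_le_left (by norm_num), ?_⟩
  intro R T V hR hT hTR hV hlog
  have hR20 : 20 ≤ R := le_trans (le_max_left _ _) hR
  have hRS : 8 * S₀ ≤ R := le_trans (le_max_right _ _) hR
  have hR0 : 0 < R := by linarith
  have hT0 : 0 < T := by linarith
  have hT3 : 0 < T ^ 3 := by positivity
  obtain ⟨S, hS⟩ : ∃ S, S = R * T ^ 3 := ⟨_, rfl⟩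
  have hS0 : 0 < S := by rw [hS]; positivity
  have hT8 : 1 / 8 ≤ T ^ 3 := by
    have := pow_le_pow_left₀ (by norm_num) hT 3
    norm_num at this ⊢
    linarith
  have hS8 : R / 8 ≤ S := by rw [hS]; nlinarith
  have hSS : S₀ ≤ S := by linarith
  have hT3u : T ^ 3 ≤ R ^ ((78 : ℝ) / 100) := by
    have h := pow_le_pow_left₀ hT0.le hTR 3
    have e : (R ^ ((26 : ℝ) / 100)) ^ 3 = R ^ ((78 : ℝ) / 100) := by
      rw [← Real.rpow_natCast, ← Real.rpow_mul hR0.le]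
      norm_num
    rwa [e] at h
  have hSu : S ≤ R ^ ((178 : ℝ) / 100) := by
    have e : R ^ ((178 : ℝ) / 100) = R * R ^ ((78 : ℝ) / 100) := by
      nth_rewrite 2 [← Real.rpow_one R]
      rw [← Real.rpow_add hR0]
      norm_num
    rw [e, hS]
    exact mul_le_mul_of_nonneg_left hT3u hR0.le
  have hSh : S ^ ((1 : ℝ) / 2) ≤ V := by
    have h1 : S ^ ((1 : ℝ) / 2) ≤ (R ^ ((178 : ℝ) / 100)) ^ ((1 : ℝ) / 2) :=
      Real.rpow_le_rpow hS0.le hSu (by norm_num)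
    rw [← Real.rpow_mul hR0.le] at h1
    have h2 : R ^ ((178 : ℝ) / 100 * (1 / 2)) ≤ R ^ ((9 : ℝ) / 10) :=
      Real.rpow_le_rpow_of_exponent_le (by linarith) (by norm_num)
    linarith
  have hl : Real.log V ≤ S ^ ((1 : ℝ) / 2500) := by
    have h1 : R ^ ((1 : ℝ) / 2500) ≤ (8 * S) ^ ((1 : ℝ) / 2500) :=
      Real.rpow_le_rpow hR0.le (by linarith) (by norm_num)
    rw [Real.mul_rpow (by norm_num) hS0.le] at h1
    have h2 : (8 : ℝ) ^ ((1 : ℝ) / 2500) ≤ 2 := by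
      have h3 : (8 : ℝ) ^ ((1 : ℝ) / 2500) ≤ (8 : ℝ) ^ ((1 : ℝ) / 3) :=
        Real.rpow_le_rpow_of_exponent_le (by norm_num) (by norm_num)
      have h4 : (8 : ℝ) ^ ((1 : ℝ) / 3) = 2 := by
        have e : (8 : ℝ) = 2 ^ (3 : ℝ) := by norm_num
        rw [e, ← Real.rpow_mul (by norm_num)]
        norm_num
      linarith
    have h5 : 0 ≤ S ^ ((1 : ℝ) / 2500) := by positivity
    nlinarith
  -- the sets
  obtain ⟨D, hD⟩ : ∃ D : ℤ × ℤ × ℤ → Finset ℤ, ∀ x, D x =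
      (Finset.Icc (-⌊200 * (R * T ^ 3)⌋) ⌊200 * (R * T ^ 3)⌋).filter (fun d =>
        ∃ p q : ℤ, Good 200 R T V x.1 x.2.1 x.2.2 d p q ∧
    (Chart2 200 R T V x.1 x.2.1 x.2.2 p q ∨ Chart1 200 R T V x.2.1 x.2.2 d p q)) := ⟨_, fun _ => rfl⟩
  obtain ⟨F, hFF⟩ : ∃ F : Finset (ℤ × ℤ × ℤ), F =
      ((Finset.Icc (-⌊200 * (R / T ^ 3)⌋) ⌊200 * (R / T ^ 3)⌋) ×ˢ
        (Finset.Icc (-⌊200 * (R / T)⌋) ⌊200 * (R / T)⌋) ×ˢ
        (Finset.Icc (-⌊200 * (R * T)⌋) ⌊200 * (R * T)⌋)).filter (fun x =>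
          x.1 ≠ 0 ∧ ∀ e : ℤ, e ^ 3 ≠ x.1) := ⟨_, rfl⟩
  have hDc : ∀ x ∈ F, ((D x).card : ℝ) ≤ S ^ (1 - (1 : ℝ) / 22 + 1 / 300) := by
    intro x hx
    rw [hFF, Finset.mem_filter] at hx
    rw [hS]
    refine hF R T V x.1 x.2.1 x.2.2 (D x) hx.2.1 hx.2.2 hR20 hT (by rw [← hS]; exact hSS)
      (by rw [← hS]; exact hSh) (by rw [← hS]; exact hl) (fun d hd => ?_)
    rw [hD, Finset.mem_filter] at hd
    exact hd.2
  obtain ⟨G, hG⟩ : ∃ G : Finset ℤ, G =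
      F.biUnion (fun x => (D x).image (fun d => disc4 x.1 x.2.1 x.2.2 d / 4)) := ⟨_, rfl⟩
  have hsub : {k : ℤ | ∃ a b c d p q : ℤ, Good 200 R T V a b c d p q ∧
    (Chart2 200 R T V a b c p q ∨ Chart1 200 R T V b c d p q) ∧ a ≠ 0 ∧ (∀ e : ℤ, e ^ 3 ≠ a) ∧
    disc4 a b c d = 4 * k} ⊆ (G : Set ℤ) := by
    rintro k ⟨a, b, c, d, p, q, hg, hch, ha, hcu, hk⟩
    rw [Finset.mem_coe, hG, Finset.mem_biUnion]
    refine ⟨(a, b, c), ?_, ?_⟩
    · rw [hFF, Finset.mem_filter, Finset.mem_product, Finset.mem_product]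
      refine ⟨⟨?_, ?_, ?_⟩, ha, hcu⟩
      · refine mem_box _ _ ?_
        have h := hg.ha
        rw [← mul_div_assoc, le_div_iff₀ hT3]
        exact h
      · refine mem_box _ _ ?_
        have h := hg.hb
        rw [← mul_div_assoc, le_div_iff₀ hT0]
        exact h
      · exact mem_box _ _ hg.hc
    · rw [Finset.mem_image]
      refine ⟨d, ?_, ?_⟩
      · rw [hD, Finset.mem_filter]
        exact ⟨mem_box _ _ hg.hd, p, q, hg, hch⟩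
      · simp only
        rw [hk]
        omega
  have hGc : (G.card : ℝ) ≤ (F.card : ℝ) * S ^ (1 - (1 : ℝ) / 22 + 1 / 300) := by
    have h1 : G.card ≤ ∑ x ∈ F, (D x).card := by
      rw [hG]
      exact le_trans Finset.card_biUnion_le (Finset.sum_le_sum (fun x _ => Finset.card_image_le))
    have h2 : ((∑ x ∈ F, (D x).card : ℕ) : ℝ) ≤ ∑ x ∈ F, S ^ (1 - (1 : ℝ) / 22 + 1 / 300) := by
      push_cast
      exact Finset.sum_le_sum hDc
    rw [Finset.sum_const, nsmul_eq_mul] at h2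
    exact le_trans (by exact_mod_cast h1) h2
  have hR1 : 1 ≤ R := by linarith
  have hT3R : T ^ 3 ≤ R := by
    have h : R ^ ((78 : ℝ) / 100) ≤ R ^ (1 : ℝ) :=
      Real.rpow_le_rpow_of_exponent_le hR1 (by norm_num)
    rw [Real.rpow_one] at h
    linarith
  have hTR1 : T ≤ R := by
    have h : R ^ ((26 : ℝ) / 100) ≤ R ^ (1 : ℝ) :=
      Real.rpow_le_rpow_of_exponent_le hR1 (by norm_num)
    rw [Real.rpow_one] at h
    linarith
  have hFc : (F.card : ℝ) ≤ 401 ^ 3 * (R ^ 3 / T ^ 3) := by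
    have h1 : F.card ≤ (Finset.Icc (-⌊200 * (R / T ^ 3)⌋) ⌊200 * (R / T ^ 3)⌋).card *
        ((Finset.Icc (-⌊200 * (R / T)⌋) ⌊200 * (R / T)⌋).card *
        (Finset.Icc (-⌊200 * (R * T)⌋) ⌊200 * (R * T)⌋).card) := by
      rw [hFF]
      refine le_trans (Finset.card_filter_le _ _) ?_
      rw [Finset.card_product, Finset.card_product]
    have b1 := card_box (R / T ^ 3) (by rw [le_div_iff₀ hT3]; linarith) _ rfl
    have b2 := card_box (R / T) (by rw [le_div_iff₀ hT0]; linarith) _ rfl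
    have b3 := card_box (R * T) (by nlinarith) _ rfl
    have h2 : (F.card : ℝ) ≤ (401 * (R / T ^ 3)) * ((401 * (R / T)) * (401 * (R * T))) := by
      refine le_trans (Nat.cast_le.2 h1) ?_
      push_cast
      exact mul_le_mul b1 (mul_le_mul b2 b3 (by positivity) (by positivity)) (by positivity)
        (by positivity)
    refine h2.trans (le_of_eq ?_)
    field_simp
  have hfin : (401 ^ 3 * (R ^ 3 / T ^ 3)) * S ^ (1 - (1 : ℝ) / 22 + 1 / 300) ≤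
      2 * 401 ^ 3 * R ^ (4 - (1 : ℝ) / 22 + 1 / 300) := by
    have e1 : S ^ (1 - (1 : ℝ) / 22 + 1 / 300) =
        R ^ (1 - (1 : ℝ) / 22 + 1 / 300) * (T ^ 3) ^ (1 - (1 : ℝ) / 22 + 1 / 300) := by
      rw [hS, Real.mul_rpow hR0.le hT3.le]
    have e2 : R ^ (4 - (1 : ℝ) / 22 + 1 / 300) = R ^ 3 * R ^ (1 - (1 : ℝ) / 22 + 1 / 300) := by
      rw [← Real.rpow_natCast R 3, ← Real.rpow_add hR0]
      norm_num
    have e3 : (T ^ 3) ^ (1 - (1 : ℝ) / 22 + 1 / 300) ≤ 2 * T ^ 3 := by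
      have h1 : (T ^ 3) ^ (1 - (1 : ℝ) / 22 + 1 / 300) =
          T ^ 3 * (T ^ 3) ^ (-((1 : ℝ) / 22 - 1 / 300)) := by
        nth_rewrite 2 [← Real.rpow_one (T ^ 3)]
        rw [← Real.rpow_add hT3]
        norm_num
      have h2 : (T ^ 3) ^ (-((1 : ℝ) / 22 - 1 / 300)) ≤ 2 := by
        rw [Real.rpow_neg hT3.le, ← Real.inv_rpow hT3.le]
        have h3 : (T ^ 3)⁻¹ ≤ 8 := by
          rw [inv_le_comm₀ hT3 (by norm_num)]
          linarith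
        have h4 : ((T ^ 3)⁻¹) ^ ((1 : ℝ) / 22 - 1 / 300) ≤ (8 : ℝ) ^ ((1 : ℝ) / 22 - 1 / 300) :=
          Real.rpow_le_rpow (by positivity) h3 (by norm_num)
        have h5 : (8 : ℝ) ^ ((1 : ℝ) / 22 - 1 / 300) ≤ (8 : ℝ) ^ ((1 : ℝ) / 3) :=
          Real.rpow_le_rpow_of_exponent_le (by norm_num) (by norm_num)
        have h6 : (8 : ℝ) ^ ((1 : ℝ) / 3) = 2 := by
          have e : (8 : ℝ) = 2 ^ (3 : ℝ) := by norm_num
          rw [e, ← Real.rpow_mul (by norm_num)]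
          norm_num
        linarith
      rw [h1]
      nlinarith
    rw [e1, e2]
    obtain ⟨Y, hY⟩ : ∃ Y, Y = R ^ (1 - (1 : ℝ) / 22 + 1 / 300) := ⟨_, rfl⟩
    have hY0 : 0 < Y := by rw [hY]; positivity
    rw [← hY]
    have h7 : 401 ^ 3 * (R ^ 3 / T ^ 3) * (Y * (T ^ 3) ^ (1 - (1 : ℝ) / 22 + 1 / 300)) ≤
        401 ^ 3 * (R ^ 3 / T ^ 3) * (Y * (2 * T ^ 3)) := by
      refine mul_le_mul_of_nonneg_left (mul_le_mul_of_nonneg_left e3 hY0.le) (by positivity)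
    refine h7.trans (le_of_eq ?_)
    field_simp
  refine ⟨G.finite_toSet.subset hsub, ?_⟩
  have h8 : ({k : ℤ | ∃ a b c d p q : ℤ, Good 200 R T V a b c d p q ∧
    (Chart2 200 R T V a b c p q ∨ Chart1 200 R T V b c d p q) ∧ a ≠ 0 ∧ (∀ e : ℤ, e ^ 3 ≠ a) ∧
    disc4 a b c d = 4 * k}.ncard) ≤ G.card := by
    have h9 := Set.ncard_le_ncard hsub G.finite_toSet
    rwa [Set.ncard_coe_finset] at h9
  have h10 : (F.card : ℝ) * S ^ (1 - (1 : ℝ) / 22 + 1 / 300) ≤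
      (401 ^ 3 * (R ^ 3 / T ^ 3)) * S ^ (1 - (1 : ℝ) / 22 + 1 / 300) :=
    mul_le_mul_of_nonneg_right hFc (by positivity)
  calc (({k : ℤ | ∃ a b c d p q : ℤ, Good 200 R T V a b c d p q ∧
    (Chart2 200 R T V a b c p q ∨ Chart1 200 R T V b c d p q) ∧ a ≠ 0 ∧ (∀ e : ℤ, e ^ 3 ≠ a) ∧
    disc4 a b c d = 4 * k}.ncard : ℕ) : ℝ) ≤ (G.card : ℝ) := by exact_mod_cast h8
    _ ≤ _ := hGc
    _ ≤ _ := h10
    _ ≤ _ := hfin

end Pool.Agent.W214.HZ
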